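import Pool.Agent.AT8.Stmts1
import Pool.Agent.Helper20_PP.Ibr
import Pool.Agent.Helper17_PP.Ops

/-!
# Squad AT8, LFT: idempotents can be lifted
-/

open scoped BigOperators

noncomputable section

namespace Pool.Agent.PP.T8.H27

open Pool.Agent.Helper51_AWC Pool.Agent.Helper79_WRA Pool.Agent.PP Pool.Agent.PP.KF
open Pool.Agent.PP.K9 Pool.Agent.PP.K9.H97 Pool.Agent.PP.H75 Pool.Agent.PP.T3 Pool.Agent.PP.T2

attribute [local instance] Ideal.Quotient.field

section gen

variable {R F : Type} [CommRing R] [Field F] (φ : R →+* F)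

theorem cop_prod {S : Type} [CommSemiring S] (q : S) (t : Multiset S) (h : ∀ p ∈ t, IsCoprime p q) :
    IsCoprime t.prod q := by
  induction t using Multiset.induction_on with
  | empty => rw [Multiset.prod_zero]; exact isCoprime_one_left
  | cons a t ih =>
    rw [Multiset.prod_cons]
    exact IsCoprime.mul_left (h a (Multiset.mem_cons_self a t))
      (ih fun p hp => h p (Multiset.mem_cons_of_mem hp))

theorem cop (hu : ∀ a : R, φ a ≠ 0 → IsUnit a) (s t : Multiset R) (hs : ∀ a ∈ s, φ a = 0)
    (ht : ∀ a ∈ t, φ a ≠ 0) :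
    IsCoprime (s.map fun a => (Polynomial.X - Polynomial.C a : Polynomial R)).prod
      (t.map fun a => (Polynomial.X - Polynomial.C a : Polynomial R)).prod := by
  apply cop_prod
  intro p hp
  obtain ⟨a, ha, rfl⟩ := Multiset.mem_map.1 hp
  apply IsCoprime.symm
  apply cop_prod
  intro q hq
  obtain ⟨b, hb, rfl⟩ := Multiset.mem_map.1 hq
  apply Polynomial.isCoprime_X_sub_C_of_isUnit_sub
  apply hu
  rw [map_sub, hs a ha, sub_zero]
  exact ht b hb

/-- polynomials in an idempotent -/
theorem ev_idem {B : Type} [Ring B] [Algebra F B] {E : B} (hE : E * E = E) (h : Polynomial F) :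
    Polynomial.aeval E h = h.eval 0 • (1 - E) + h.eval 1 • E := by
  induction h using Polynomial.induction_on' with
  | add p q hp hq =>
    rw [map_add, hp, hq, Polynomial.eval_add, Polynomial.eval_add, add_smul, add_smul]
    abel
  | monomial n a =>
    rw [Polynomial.aeval_monomial, Polynomial.eval_monomial, Polynomial.eval_monomial, one_pow,
      mul_one]
    rcases Nat.eq_zero_or_pos n with rfl | hn
    · rw [pow_zero, mul_one, pow_zero, mul_one, Algebra.algebraMap_eq_smul_one, smul_sub]
      abel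
    · rw [zero_pow hn.ne', mul_zero, zero_smul, zero_add, IsIdempotentElem.pow_eq hE hn.ne',
        Algebra.smul_def]

theorem gen {B B' : Type} [Ring B] [Algebra R B] [Ring B'] [Algebra F B'] (ψ : B →+* B')
    (hψ : (algebraMap F B').comp φ = ψ.comp (algebraMap R B))
    (hu : ∀ a : R, φ a ≠ 0 → IsUnit a) (x : B) (hx : ψ x * ψ x = ψ x) (s : Multiset R)
    (hs : Polynomial.aeval x (s.map fun a => (Polynomial.X - Polynomial.C a : Polynomial R)).prod
      = 0) :
    ∃ p : Polynomial R, Polynomial.aeval x p * Polynomial.aeval x p = Polynomial.aeval x p ∧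
      ψ (Polynomial.aeval x p) = ψ x := by
  classical
  have hcop := cop φ hu (s.filter fun a => φ a = 0) (s.filter fun a => ¬ φ a = 0)
    (fun a ha => (Multiset.mem_filter.1 ha).2) (fun a ha => (Multiset.mem_filter.1 ha).2)
  obtain ⟨P, hP⟩ : ∃ P, P = ((s.filter fun a => φ a = 0).map
    fun a => (Polynomial.X - Polynomial.C a : Polynomial R)).prod := ⟨_, rfl⟩
  obtain ⟨Q, hQ⟩ : ∃ Q, Q = ((s.filter fun a => ¬ φ a = 0).map
    fun a => (Polynomial.X - Polynomial.C a : Polynomial R)).prod := ⟨_, rfl⟩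
  obtain ⟨f, hf⟩ : ∃ f, f = (s.map fun a => (Polynomial.X - Polynomial.C a : Polynomial R)).prod :=
    ⟨_, rfl⟩
  rw [← hP, ← hQ] at hcop
  rw [← hf] at hs
  have hPQ : P * Q = f := by
    rw [hP, hQ, hf, ← Multiset.prod_add, ← Multiset.map_add, Multiset.filter_add_not]
  obtain ⟨A, D, hAD⟩ := hcop
  have hev : ∀ h : Polynomial R, ψ (Polynomial.aeval x h) =
      (h.map φ).eval 0 • (1 - ψ x) + (h.map φ).eval 1 • ψ x := by
    intro h
    rw [Polynomial.map_aeval_eq_aeval_map hψ, ev_idem hx]
  have hf0 := hev f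
  rw [hs, map_zero] at hf0
  have hfm : ∀ c : F, (f.map φ).eval c = (s.map fun a => c - φ a).prod := by
    intro c
    rw [hf, Polynomial.map_multiset_prod, Polynomial.eval_multiset_prod, Multiset.map_map,
      Multiset.map_map]
    congr 1
    apply Multiset.map_congr rfl
    intro a _
    simp only [Function.comp_apply, Polynomial.map_sub, Polynomial.map_X, Polynomial.map_C,
      Polynomial.eval_sub, Polynomial.eval_X, Polynomial.eval_C]
  have hroot : ∀ (t : Multiset R) (c : F), (∃ a ∈ t, φ a = c) →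
      ((t.map fun a => (Polynomial.X - Polynomial.C a : Polynomial R)).prod.map φ).eval c = 0 := by
    intro t c hac
    obtain ⟨a, ha, rfl⟩ := hac
    rw [Polynomial.map_multiset_prod, Polynomial.eval_multiset_prod, Multiset.map_map,
      Multiset.map_map]
    apply Multiset.prod_eq_zero
    rw [Multiset.mem_map]
    refine ⟨a, ha, ?_⟩
    simp only [Function.comp_apply, Polynomial.map_sub, Polynomial.map_X, Polynomial.map_C,
      Polynomial.eval_sub, Polynomial.eval_X, Polynomial.eval_C, sub_self]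
  have hex : ∀ c : F, (f.map φ).eval c = 0 → ∃ a ∈ s, φ a = c := by
    intro c hc
    rw [hfm, Multiset.prod_eq_zero_iff, Multiset.mem_map] at hc
    obtain ⟨a, ha, h⟩ := hc
    exact ⟨a, ha, (sub_eq_zero.1 h).symm⟩
  have hxx : (1 - ψ x) * ψ x = 0 := by rw [sub_mul, one_mul, hx, sub_self]
  have hxx' : (1 - ψ x) * (1 - ψ x) = 1 - ψ x := by
    rw [mul_sub, mul_one, hxx, sub_zero]
  have h1 : ((A * P).map φ).eval 0 • (1 - ψ x) = 0 := by
    by_cases hE : ψ x = 1
    · rw [hE, sub_self, smul_zero]
    · have h2 := congrArg (fun y => (1 - ψ x) * y) hf0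
      simp only [mul_zero, mul_add, mul_smul_comm, hxx', hxx, smul_zero, add_zero] at h2
      have h3 : (f.map φ).eval 0 = 0 := by
        rcases smul_eq_zero.1 h2.symm with h | h
        · exact h
        · exact absurd (sub_eq_zero.1 h).symm hE
      obtain ⟨a, ha, ha0⟩ := hex 0 h3
      have h4 : (P.map φ).eval 0 = 0 := by
        rw [hP]
        exact hroot _ 0 ⟨a, Multiset.mem_filter.2 ⟨ha, ha0⟩, ha0⟩
      rw [Polynomial.map_mul, Polynomial.eval_mul, h4, mul_zero, zero_smul]
  have h2 : ((A * P).map φ).eval 1 • ψ x = ψ x := by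
    by_cases hE : ψ x = 0
    · rw [hE, smul_zero]
    · have h2 := congrArg (fun y => y * ψ x) hf0
      simp only [zero_mul, add_mul, smul_mul_assoc, hxx, hx, smul_zero, zero_add] at h2
      have h3 : (f.map φ).eval 1 = 0 := by
        rcases smul_eq_zero.1 h2.symm with h | h
        · exact h
        · exact absurd h hE
      obtain ⟨a, ha, ha0⟩ := hex 1 h3
      have h4 : (Q.map φ).eval 1 = 0 := by
        rw [hQ]
        refine hroot _ 1 ⟨a, Multiset.mem_filter.2 ⟨ha, ?_⟩, ha0⟩
        rw [ha0]
        exact one_ne_zero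
      have h5 := congrArg (fun g : Polynomial R => (g.map φ).eval 1) hAD
      simp only [Polynomial.map_add, Polynomial.map_mul, Polynomial.eval_add, Polynomial.eval_mul,
        Polynomial.map_one, Polynomial.eval_one, h4, mul_zero, add_zero] at h5
      rw [Polynomial.map_mul, Polynomial.eval_mul, h5, one_smul]
  refine ⟨A * P, ?_, ?_⟩
  · have h3 : A * P * (A * P) = A * P - (A * D) * f := by
      rw [← hPQ]
      have h4 : A * P = 1 - D * Q := by rw [← hAD]; ring
      calc A * P * (A * P) = A * P * (1 - D * Q) := by rw [← h4]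
        _ = _ := by ring
    rw [← map_mul, h3, map_sub, map_mul _ (A * D) f, hs, mul_zero, sub_zero]
  · rw [hev, h1, h2, zero_add]

end gen

section closed

variable {M : Ideal (integralClosure ℤ ℂ)} [hM : M.IsMaximal]

/-- common denominators -/
theorem den (n : ℕ) (a : ℕ → ℂ) (ha : ∀ i, a i ∈ RM M) :
    ∃ s : integralClosure ℤ ℂ, s ∉ M ∧ ∀ i < n, IsIntegral ℤ ((s : ℂ) * a i) := by
  induction n with
  | zero => exact ⟨1, one_notMem, fun i hi => absurd hi (Nat.not_lt_zero i)⟩
  | succ n ih =>
    obtain ⟨s, hs, h⟩ := ih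
    obtain ⟨s', t, hs', h'⟩ := ha n
    refine ⟨s * s', fun h0 => (hM.isPrime.mem_or_mem h0).elim hs hs', fun i hi => ?_⟩
    rcases Nat.lt_succ_iff_lt_or_eq.1 hi with h1 | rfl
    · have e : ((s * s' : integralClosure ℤ ℂ) : ℂ) * a i = (s' : ℂ) * ((s : ℂ) * a i) := by
        push_cast; ring
      rw [e]
      exact s'.2.mul (h i h1)
    · have e : ((s * s' : integralClosure ℤ ℂ) : ℂ) * a i = (s : ℂ) * (t : ℂ) := by
        push_cast; rw [← h']; ring
      rw [e]
      exact s.2.mul t.2

/-- `RM M` is integrally closed -/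
theorem int_closed {f : Polynomial (RM M)} (hf : f.Monic) {α : ℂ}
    (h : Polynomial.eval₂ (RM M).subtype α f = 0) : α ∈ RM M := by
  obtain ⟨s, hs, hden⟩ := den f.natDegree (fun i => (f.coeff i : ℂ)) fun i => (f.coeff i).2
  obtain ⟨g, hg⟩ : ∃ g, g = f.map (RM M).subtype := ⟨_, rfl⟩
  have hgm : g.Monic := by rw [hg]; exact hf.map _
  have hg0 : g.eval α = 0 := by rw [hg, Polynomial.eval_map]; exact h
  have hgd : g.natDegree = f.natDegree := by rw [hg]; exact hf.natDegree_map _
  have h1 : Polynomial.eval₂ (RingHom.id ℂ) ((RingHom.id ℂ) (s : ℂ) * α)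
      (Polynomial.scaleRoots g (s : ℂ)) = 0 := by
    apply Polynomial.scaleRoots_eval₂_eq_zero
    rw [Polynomial.eval₂_id]
    exact hg0
  have h2 : (Polynomial.scaleRoots g (s : ℂ)).Monic := (Polynomial.monic_scaleRoots_iff _).2 hgm
  have h3 : Polynomial.scaleRoots g (s : ℂ) ∈
      Polynomial.lifts (algebraMap (integralClosure ℤ ℂ) ℂ) := by
    rw [Polynomial.lifts_iff_coeff_lifts]
    intro i
    rw [Polynomial.coeff_scaleRoots]
    have h4 : IsIntegral ℤ (g.coeff i * (s : ℂ) ^ (g.natDegree - i)) := by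
      rcases lt_trichotomy i g.natDegree with hi | hi | hi
      · obtain ⟨k, hk⟩ : ∃ k, g.natDegree - i = k + 1 := ⟨g.natDegree - i - 1, by omega⟩
        rw [hk, pow_succ, mul_comm ((s : ℂ) ^ k), ← mul_assoc]
        refine IsIntegral.mul ?_ (s.2.pow k)
        rw [mul_comm, hg, Polynomial.coeff_map]
        exact hden i (hgd ▸ hi)
      · rw [hi, Nat.sub_self, pow_zero, mul_one, hgm.coeff_natDegree]
        exact isIntegral_one
      · rw [Polynomial.coeff_eq_zero_of_natDegree_lt hi, zero_mul]
        exact isIntegral_zero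
    exact ⟨⟨_, h4⟩, rfl⟩
  obtain ⟨q, hq, -, hqm⟩ := Polynomial.lifts_and_natDegree_eq_and_monic h3 h2
  have h5 : IsIntegral (integralClosure ℤ ℂ) ((s : ℂ) * α) := by
    refine ⟨q, hqm, ?_⟩
    rw [← Polynomial.eval_map, hq, ← Polynomial.eval₂_id]
    exact h1
  have h6 : IsIntegral ℤ ((s : ℂ) * α) := isIntegral_trans (A := integralClosure ℤ ℂ) _ h5
  exact ⟨s, ⟨_, h6⟩, hs, rfl⟩

/-- a monic polynomial over `RM M` splits -/
theorem splits {f : Polynomial (RM M)} (hf : f.Monic) :
    ∃ s : Multiset (RM M),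
      f = (s.map fun a => (Polynomial.X - Polynomial.C a : Polynomial (RM M))).prod := by
  obtain ⟨g, hg⟩ : ∃ g, g = f.map (RM M).subtype := ⟨_, rfl⟩
  have hgm : g.Monic := by rw [hg]; exact hf.map _
  have h1 : ∀ α ∈ g.roots, α ∈ RM M := by
    intro α hα
    apply int_closed hf
    rw [← Polynomial.eval_map, ← hg]
    exact (Polynomial.mem_roots hgm.ne_zero).1 hα
  obtain ⟨s, hs⟩ : ∃ s : Multiset (RM M), s.map (fun a : RM M => (a : ℂ)) = g.roots :=
    ⟨g.roots.pmap (fun a h => ⟨a, h⟩) h1, by
      rw [Multiset.map_pmap]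
      simp only [Multiset.pmap_eq_map, Multiset.map_id']⟩
  refine ⟨s, ?_⟩
  apply Polynomial.map_injective (RM M).subtype (RM M).subtype_injective
  rw [← hg, Polynomial.map_multiset_prod, Multiset.map_map]
  have h2 := (IsAlgClosed.splits g).eq_prod_roots_of_monic hgm
  rw [← hs, Multiset.map_map] at h2
  rw [h2]
  congr 1
  apply Multiset.map_congr rfl
  intro a _
  simp only [Function.comp_apply, Polynomial.map_sub, Polynomial.map_X, Polynomial.map_C]
  rfl

end closed

section poly

variable {F G : Type} [Field F] [Group G] [Finite G]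

/-- polynomials in a function with support in `C`, invariant under `V` -/
theorem poly_inv (V C : Subgroup G) (x : G → F) (hC : ∀ g, g ∉ C → x g = 0)
    (hV : ∀ v ∈ V, ∀ g, x (v * g * v⁻¹) = x g) (q : Polynomial F) :
    ∃ y : G → F, Polynomial.aeval (H20.toMA x) q = H20.toMA y ∧ (∀ g, g ∉ C → y g = 0) ∧
      ∀ v ∈ V, ∀ g, y (v * g * v⁻¹) = y g := by
  classical
  have hinv : ∀ v ∈ V, ∀ u : G → F, (∀ g, u (v * g * v⁻¹) = u g) ↔
      (fun g => u (MulAut.conj v g)) = u := by
    intro v hv u
    exact ⟨fun h => funext h, fun h g => congrFun h g⟩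
  induction q using Polynomial.induction_on with
  | C a =>
    refine ⟨fun g => if g = 1 then a else 0, ?_, ?_, ?_⟩
    · rw [Polynomial.aeval_C]
      apply MonoidAlgebra.coeff_injective
      ext g
      rw [H20.toMA_coeff, MonoidAlgebra.coe_algebraMap, Function.comp_apply,
        MonoidAlgebra.coeff_single, Finsupp.single_apply]
      simp only [Algebra.algebraMap_self, RingHom.id_apply, eq_comm]
    · intro g hg
      refine if_neg ?_
      rintro rfl
      exact hg C.one_mem
    · intro v _ g
      have : v * g * v⁻¹ = 1 ↔ g = 1 := by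
        constructor
        · intro h
          have := congrArg (fun t => v⁻¹ * t * v) h
          simpa [mul_assoc] using this
        · rintro rfl; simp
      simp only [this]
  | add p q hp hq =>
    obtain ⟨y, hy, h1, h2⟩ := hp
    obtain ⟨z, hz, h3, h4⟩ := hq
    refine ⟨y + z, ?_, ?_, ?_⟩
    · rw [map_add, hy, hz]
      exact (H20.maE.map_add y z).symm
    · intro g hg
      rw [Pi.add_apply, h1 g hg, h3 g hg, add_zero]
    · intro v hv g
      rw [Pi.add_apply, Pi.add_apply, h2 v hv g, h4 v hv g]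
  | monomial n a ih =>
    obtain ⟨y, hy, h1, h2⟩ := ih
    refine ⟨mulF y x, ?_, ?_, ?_⟩
    · rw [pow_succ, ← mul_assoc, map_mul, hy, Polynomial.aeval_X, H20.toMA_mulF]
    · intro g hg
      have := Fintype.ofFinite G
      unfold mulF
      rw [finsum_eq_sum_of_fintype]
      apply Finset.sum_eq_zero
      intro t _
      by_cases ht : t ∈ C
      · rw [hC, mul_zero]
        intro h
        apply hg
        have := C.mul_mem ht h
        rwa [mul_inv_cancel_left] at this
      · rw [h1 t ht, zero_mul]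
    · intro v hv
      rw [hinv v hv, ← H17.mulF_comp, (hinv v hv y).1 (h2 v hv), (hinv v hv x).1 (hV v hv)]

end poly

theorem lft : LftStmt := by
  intro M hM G _ _ V C x hx hC hV
  classical
  have := Fintype.ofFinite G
  -- a section of the residue map
  obtain ⟨s, hs0, hs⟩ : ∃ s : FF M → RM M, s 0 = 0 ∧ ∀ c, rrHom M (s c) = c := by
    have h1 : ∀ c : FF M, ∃ z : RM M, rrHom M z = c := by
      intro c
      obtain ⟨z, hz, h⟩ := rr_surj c
      exact ⟨⟨z, hz⟩, h⟩
    choose s hs using h1
    refine ⟨fun c => if c = 0 then 0 else s c, if_pos rfl, fun c => ?_⟩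
    by_cases hc : c = 0
    · simp only [hc, if_true, map_zero]
    · simp only [hc, if_false, hs]
  obtain ⟨X, hX⟩ : ∃ X : MonoidAlgebra (RM M) G,
      X = MonoidAlgebra.ofCoeff (Finsupp.equivFunOnFinite.symm fun g => s (x g)) := ⟨_, rfl⟩
  have hXc : ∀ g, X.coeff g = s (x g) := by
    intro g
    rw [hX]
    rfl
  have hfin : Module.Finite (RM M) (MonoidAlgebra (RM M) G) := by
    let E : (G → RM M) ≃ₗ[RM M] MonoidAlgebra (RM M) G :=
      { toFun := fun a => MonoidAlgebra.ofCoeff (Finsupp.equivFunOnFinite.symm a)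
        invFun := fun y => fun h => y.coeff h
        left_inv := fun _ => rfl
        right_inv := by
          intro y
          apply MonoidAlgebra.coeff_injective
          ext g
          rfl
        map_add' := by
          intro a b
          apply MonoidAlgebra.coeff_injective
          ext g
          rfl
        map_smul' := by
          intro c a
          apply MonoidAlgebra.coeff_injective
          ext g
          rfl }
    exact Module.Finite.equiv E
  obtain ⟨f, hfm, hf⟩ : IsIntegral (RM M) X := IsIntegral.of_finite (RM M) X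
  obtain ⟨r, hr⟩ := splits hfm
  have hψX : MonoidAlgebra.mapRingHom G (rrHom M) X = H20.toMA x := by
    apply MonoidAlgebra.coeff_injective
    ext g
    rw [H20.toMA_coeff, MonoidAlgebra.coeff_mapRingHom]
    rw [hXc]
    exact hs _
  have hιX : MonoidAlgebra.mapRingHom G (RM M).subtype X = H20.toMA fun g => (s (x g) : ℂ) := by
    apply MonoidAlgebra.coeff_injective
    ext g
    rw [H20.toMA_coeff, MonoidAlgebra.coeff_mapRingHom]
    rw [hXc]
    rfl
  obtain ⟨p, hp1, hp2⟩ := gen (rrHom M) (MonoidAlgebra.mapRingHom G (rrHom M))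
    (MonoidAlgebra.mapRingHom_comp_algebraMap (rrHom M)).symm
    (fun a ha => by
      obtain ⟨h1, h2⟩ := inv_RM a.2 ha
      exact IsUnit.of_mul_eq_one ⟨_, h1⟩ (Subtype.ext (mul_inv_cancel₀ h2)))
    X (by rw [hψX, ← H20.toMA_mulF, hx]) r (by rw [← hr]; exact hf)
  have hmap : MonoidAlgebra.mapRingHom G (RM M).subtype (Polynomial.aeval X p) =
      Polynomial.aeval (H20.toMA fun g => (s (x g) : ℂ)) (p.map (RM M).subtype) := by
    rw [← hιX]
    exact Polynomial.map_aeval_eq_aeval_map
      (MonoidAlgebra.mapRingHom_comp_algebraMap (RM M).subtype).symm p X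
  obtain ⟨y, hy, hyC, hyV⟩ := poly_inv V C (fun g => (s (x g) : ℂ))
    (fun g hg => by simp only [hC g hg, hs0]; rfl)
    (fun v hv g => by simp only [hV v hv g]) (p.map (RM M).subtype)
  have hyc : ∀ g, y g = ((Polynomial.aeval X p).coeff g : ℂ) := by
    intro g
    rw [← H20.toMA_coeff y g, ← hy, ← hmap, MonoidAlgebra.coeff_mapRingHom]
    rfl
  refine ⟨y, ⟨fun g => ?_, ?_, hyV⟩, hyC, ?_⟩
  · rw [hyc]
    exact SetLike.coe_mem _
  · apply H20.toMA_injective
    rw [H20.toMA_mulF, ← hy, ← hmap, ← map_mul, hp1]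
  · funext g
    show rr M (y g) = x g
    rw [hyc]
    have h1 := congrArg (fun z => z.coeff g) (hp2.trans hψX)
    simp only [MonoidAlgebra.coeff_mapRingHom] at h1
    exact h1

end Pool.Agent.PP.T8.H27
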